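import Pool.Agent.K1H97.BM.Spl
import Pool.Agent.Y700.VC

/-!
# Adelic points which survive the descents by `2 ^ k`-coverings
-/

set_option autoImplicit false
set_option linter.all false

open IsDedekindDomain NumberField WeierstrassCurve MvPolynomial

namespace Pool.Agent.K1H97.BM

open Pool.Agent.TH954 Pool.Agent.R425.D

open scoped Classical

variable {K : Type} [Field K] [NumberField K]

/-- **One global point for all places.** -/
theorem adele {n : ℕ} (E : Fin n → WeierstrassCurve K) {N : ℕ}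
    (hfin : ∀ i, Finite (E i).toAffine.Point) (hsha : ∀ i, Kill (E i) N)
    (S : Set (MvPolynomial (Fin n × Fin 3) K))
    (P : (v : HeightOneSpectrum (𝓞 K)) → (i : Fin n) →
      ((E i).baseChange (v.adicCompletion K)).toAffine.Point)
    (P' : (w : InfinitePlace K) → (i : Fin n) → ((E i).baseChange w.Completion).toAffine.Point)
    (h : ∀ k : ℕ, ∃ ξ ∈ SelSet E S (2 ^ k),
      (∀ v : HeightOneSpectrum (𝓞 K), CovAt E (2 ^ k) ξ (v.adicCompletion K) (P v)) ∧
      ∀ w : InfinitePlace K, CovAt E (2 ^ k) ξ w.Completion (P' w)) :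
    ∃ y : (i : Fin n) → (E i).toAffine.Point,
      (∀ (v : HeightOneSpectrum (𝓞 K)) (k : ℕ) i, ∃ z,
        P v i - locHom (L := v.adicCompletion K) (E i) (y i) = 2 ^ k • z) ∧
      ∀ (w : InfinitePlace K) (k : ℕ) i, ∃ z,
        P' w i - locHom (L := w.Completion) (E i) (y i) = 2 ^ k • z := by
  have h1 : ∀ k : ℕ, ∃ y : (i : Fin n) → (E i).toAffine.Point,
      (∀ (v : HeightOneSpectrum (𝓞 K)) i, ∃ z,
        P v i - locHom (L := v.adicCompletion K) (E i) (y i) = 2 ^ k • z) ∧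
      ∀ (w : InfinitePlace K) i, ∃ z,
        P' w i - locHom (L := w.Completion) (E i) (y i) = 2 ^ k • z := by
    intro k
    obtain ⟨ξ, hξ, hv, hw⟩ := h (k + N)
    obtain ⟨y, hy⟩ := shift _ hsha S k ξ hξ
    refine ⟨y, fun v => ?_, fun w => ?_⟩
    · have : CharZero (v.adicCompletion K) :=
        charZero_of_injective_algebraMap (algebraMap K (v.adicCompletion K)).injective
      obtain ⟨ι, Q, hPQ, hQ⟩ := hv v
      exact hy _ ι (P v) Q hPQ hQ
    · have : CharZero w.Completion :=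
        charZero_of_injective_algebraMap (algebraMap K w.Completion).injective
      obtain ⟨ι, Q, hPQ, hQ⟩ := hw w
      exact hy _ ι (P' w) Q hPQ hQ
  choose Y hY using h1
  obtain ⟨y, hy⟩ := Finite.exists_infinite_fiber Y
  have hinf : (Y ⁻¹' {y}).Infinite := Set.infinite_coe_iff.1 hy
  refine ⟨y, fun v k i => ?_, fun w k i => ?_⟩
  · obtain ⟨k', hk', hlt⟩ := hinf.exists_gt k
    have hk'' : Y k' = y := hk'
    obtain ⟨z, hz⟩ := (hY k').1 v i
    rw [hk''] at hz
    refine ⟨2 ^ (k' - k) • z, ?_⟩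
    rw [hz, ← mul_smul, ← pow_add]
    congr 2
    omega
  · obtain ⟨k', hk', hlt⟩ := hinf.exists_gt k
    have hk'' : Y k' = y := hk'
    obtain ⟨z, hz⟩ := (hY k').2 w i
    rw [hk''] at hz
    refine ⟨2 ^ (k' - k) • z, ?_⟩
    rw [hz, ← mul_smul, ← pow_add]
    congr 2
    omega

/-- at a place of degree one above two a point divisible by all powers of two has odd order -/
theorem odd_at {a b : ℤ} (hD : 4 * a ^ 3 + 27 * b ^ 2 ≠ 0)
    (v : HeightOneSpectrum (𝓞 K)) (e : ℚ_[2] ≃+* v.adicCompletion K)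
    (P : ((cv a b K).baseChange (v.adicCompletion K)).toAffine.Point)
    (h : ∀ k : ℕ, ∃ z, P = 2 ^ k • z) : ∃ m : ℕ, Odd m ∧ m • P = 0 := by
  let g : v.adicCompletion K →+* ℚ_[2] := e.symm.toRingHom
  obtain ⟨φ, hφi, hφ⟩ := transport g ((cv a b K).baseChange (v.adicCompletion K))
    (cv a b ℚ_[2]) (by
      show ((cv a b K).map (algebraMap K (v.adicCompletion K))).map g = _
      rw [cv_map, cv_map])
  obtain ⟨m, hm, hm0⟩ := odd_of_div (si_cv a b) (disc_cv hD) norm_two'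
    (φ P) (fun k => by
      obtain ⟨z, hz⟩ := h k
      exact ⟨φ z, by rw [hz, map_nsmul]⟩)
  refine ⟨m, hm, hφi ?_⟩
  rw [map_nsmul, hm0, map_zero]

/-- no points of odd order at a place of degree one above two -/
theorem no_odd_at {a b : ℤ}
    (hodd : ∀ (T : (cv a b ℚ_[2]).toAffine.Point) (m : ℕ), Odd m → m • T = 0 → T = 0)
    (v : HeightOneSpectrum (𝓞 K)) (e : ℚ_[2] ≃+* v.adicCompletion K)
    (P : ((cv a b K).baseChange (v.adicCompletion K)).toAffine.Point) {m : ℕ} (hm : Odd m)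
    (h : m • P = 0) : P = 0 := by
  let g : v.adicCompletion K →+* ℚ_[2] := e.symm.toRingHom
  obtain ⟨φ, hφi, hφ⟩ := transport g ((cv a b K).baseChange (v.adicCompletion K))
    (cv a b ℚ_[2]) (by
      show ((cv a b K).map (algebraMap K (v.adicCompletion K))).map g = _
      rw [cv_map, cv_map])
  apply hφi
  rw [map_zero]
  refine hodd _ m hm ?_
  rw [← map_nsmul, h, map_zero]

/-- scaling by a square over the 2-adic numbers -/
theorem no_odd_scale {a b d : ℤ} (hd : d ≠ 0) (hD : 4 * a ^ 3 + 27 * b ^ 2 ≠ 0)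
    (hs : IsSquare ((d : ℤ) : ℚ_[2]))
    (hodd : ∀ (T : (cv a b ℚ_[2]).toAffine.Point) (m : ℕ), Odd m → m • T = 0 → T = 0) :
    ∀ (T : (cv (d ^ 2 * a) (d ^ 3 * b) ℚ_[2]).toAffine.Point) (m : ℕ), Odd m → m • T = 0 →
      T = 0 := by
  intro T m hm h
  obtain ⟨u, hu⟩ := hs
  have hu0 : u ≠ 0 := by
    rintro rfl
    rw [mul_zero, Int.cast_eq_zero] at hu
    exact hd hu
  have hv : Pool.Agent.Y700.VR (cv (d ^ 2 * a) (d ^ 3 * b) ℚ_[2]) (cv a b ℚ_[2]) u 0 0 0 :=
    { u0 := hu0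
      e1 := by simp [cv]
      e2 := by simp [cv]
      e3 := by simp [cv]
      e4 := by
        simp only [cv]
        push_cast
        rw [hu]
        ring
      e6 := by
        simp only [cv]
        push_cast
        rw [hu]
        ring }
  have hΔ : (cv a b ℚ_[2]).Δ ≠ 0 := by
    have h1 : (cv a b ℚ_[2]).Δ = -16 * ((4 * a ^ 3 + 27 * b ^ 2 : ℤ) : ℚ_[2]) := by
      simp only [cv, WeierstrassCurve.Δ, WeierstrassCurve.b₂, WeierstrassCurve.b₄,
        WeierstrassCurve.b₆, WeierstrassCurve.b₈]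
      push_cast
      ring
    rw [h1]
    exact mul_ne_zero (by norm_num) (by exact_mod_cast hD)
  let φ := hv.equiv hΔ
  have h2 : φ.symm T = 0 := by
    refine hodd _ m hm ?_
    rw [← map_nsmul, h, map_zero]
  have h3 := congrArg φ h2
  rwa [AddEquiv.apply_symm_apply, map_zero] at h3

/-- there are places above two (as in `Pool/Agent/R425/D/Fin.lean`) -/
lemma exists_two (K : Type) [Field K] [NumberField K] :
    ∃ v : HeightOneSpectrum (𝓞 K), ((2 : ℕ) : 𝓞 K) ∈ v.asIdeal := by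
  have hne : Ideal.span {((2 : ℕ) : 𝓞 K)} ≠ ⊤ := by
    intro h
    rw [Ideal.span_singleton_eq_top] at h
    have h1 := Ideal.absNorm_span_singleton ((2 : ℕ) : 𝓞 K)
    rw [Ideal.span_singleton_eq_top.2 h, Ideal.absNorm_top] at h1
    have h2 : ((2 : ℕ) : 𝓞 K) = algebraMap ℤ (𝓞 K) 2 := by simp
    rw [h2, Algebra.norm_algebraMap, Int.natAbs_pow] at h1
    have h3 : 0 < Module.finrank ℤ (𝓞 K) := by
      rw [RingOfIntegers.rank]
      exact Module.finrank_pos
    have h4 : (2 : ℕ) ^ 1 ≤ 2 ^ Module.finrank ℤ (𝓞 K) := Nat.pow_le_pow_right (by norm_num) h3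
    have h5 : (1 : ℕ) = 2 ^ Module.finrank ℤ (𝓞 K) := h1
    omega
  obtain ⟨m, hm, hle⟩ := Ideal.exists_le_maximal _ hne
  have hmem : ((2 : ℕ) : 𝓞 K) ∈ m := hle (Ideal.mem_span_singleton_self _)
  refine ⟨⟨m, hm.isPrime, ?_⟩, hmem⟩
  rintro rfl
  rw [Ideal.mem_bot] at hmem
  have : ((2 : ℕ) : 𝓞 K) ≠ 0 := by
    rw [Nat.cast_ne_zero]
    norm_num
  exact this hmem

end Pool.Agent.K1H97.BM
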