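import Pool.Agent.K1H97.BM.Fam

/-!
# The towers of fields for the good `D`
-/

set_option autoImplicit false

open scoped Classical

namespace Pool.Agent.K1H97.BM

open Finset
open Pool.Agent.K1H97.CU
open Pool.Agent.Y703.CQ (nr)
open Pool.Agent.K1H97.ST (Lap Ker ker_card GP St)
open Pool.Agent.K1H97.NA (Ev Sol Cl PM ev_rank)
open Pool.Agent.K1H97.FC (FCube field_full)
open Pool.Agent.W307.RT (Sh)
open Pool.Agent.TH841.NF (EF)
open Pool.Agent.Y723.QT (Kl)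

variable {k : ℕ}

/-- **The towers.** -/
theorem tower {x : Fin k → ℤ × ℤ} (hD0 : ∀ i, 4 * (x i).1 ^ 3 + 27 * (x i).2 ^ 2 ≠ 0)
    {e : Fin k → ℤ} (he : ∀ i, e i ^ 3 + (x i).1 * e i + (x i).2 = 0) {q M : ℕ} (hq : q.Prime)
    (hq8 : q % 8 = 1) (hM : 0 < M) (hM8 : 8 ∣ M) (hcop : Nat.Coprime q M)
    (h : ∀ (n : ℕ) (r : Fin n → ℕ), Function.Injective r →
      (∀ j, (r j).Prime ∧ r j ≡ 1 [MOD M] ∧ r j ≠ q) →
        ∀ i, St (x i) ((q * ∏ j, r j : ℕ) : ℤ) (n - (Lap q r).rank))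
    {D : ℕ} (hsq : Squarefree D) (hcl : Cl (PM M q) D.primeFactors)
    (hev : Ev q 0 D.primeFactors) :
    ∃ R : Set ℕ, R.Infinite ∧ (∀ r ∈ R, r.Prime ∧ r ≡ 1 [MOD M]) ∧
      ∀ i, FCube M ((((q * D : ℕ) : ℤ)) ^ 2 * (x i).1, (((q * D : ℕ) : ℤ)) ^ 3 * (x i).2) R := by
  have hM4 : 4 ∣ M := Dvd.dvd.trans (by norm_num) hM8
  have hD : D ≠ 0 := hsq.ne_zero
  have hDc : ∀ p : ℕ, p.Prime → p ∣ D → p ≡ 1 [MOD M] ∧ p ≠ q := by
    intro p hp hpD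
    obtain ⟨-, h2, h3⟩ := hcl p ((Nat.mem_primeFactors_of_ne_zero hD).2 ⟨hp, hpD⟩)
    exact ⟨h2, h3⟩
  obtain ⟨R, h1, h2, h3, h4⟩ := exists_R hM hM4 hq (by omega) hcop hD (fun p hp hpD =>
    ⟨(hDc p hp hpD).1.of_dvd hM4, (hDc p hp hpD).2⟩)
  refine ⟨R, h1, fun r hr => ⟨(h2 r hr).1, (h2 r hr).2.1⟩, fun i => ⟨h1, fun r hr => (h2 r hr).1,
    fun r hr => (h2 r hr).2.1, fun T hT => ?_⟩⟩
  have hev' := ev_union hev h3 h4 (fun r hr => (h2 r hr).2.2.2) hT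
  have hdis : Disjoint D.primeFactors T := by
    rw [Finset.disjoint_left]
    intro p hp hpT
    exact (h2 p (hT hpT)).2.2.2 (Nat.dvd_of_mem_primeFactors hp)
  obtain ⟨S, hS⟩ : ∃ S : Finset ℕ, S = D.primeFactors ∪ T := ⟨_, rfl⟩
  rw [← hS] at hev'
  have g : Fin S.card ≃ S := S.equivFin.symm
  have hSp : ∀ p ∈ S, p.Prime ∧ p ≡ 1 [MOD M] ∧ p ≠ q := by
    intro p hp
    rw [hS, mem_union] at hp
    rcases hp with hp | hp
    · have := hDc p (Nat.prime_of_mem_primeFactors hp) (Nat.dvd_of_mem_primeFactors hp)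
      exact ⟨Nat.prime_of_mem_primeFactors hp, this.1, this.2⟩
    · exact ⟨(h2 p (hT hp)).1, (h2 p (hT hp)).2.1, (h2 p (hT hp)).2.2.1⟩
  have key := h S.card (fun j => (g j : ℕ)) (fun a b hab => g.injective (Subtype.ext hab))
    (fun j => hSp _ (g j).2) i
  have hrk := (ev_rank g).1 hev'
  rw [hrk] at key
  have hprod : ∏ j, (g j : ℕ) = D * ∏ p ∈ T, p := by
    have e3 : ∏ j, (g j : ℕ) = ∏ p : S, (p : ℕ) := Equiv.prod_comp g fun p : S => (p : ℕ)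
    rw [e3, Finset.prod_coe_sort S fun p => p, hS, prod_union hdis,
      Nat.prod_primeFactors_of_squarefree hsq]
  rw [hprod] at key
  have hTp : ∀ p ∈ T, p.Prime := fun p hp => (h2 p (hT hp)).1
  have hd0 : ((q * (D * ∏ p ∈ T, p) : ℕ) : ℤ) ≠ 0 := by
    have h5 : ∏ p ∈ T, p ≠ 0 := prod_ne_zero_iff.2 fun p hp => (hTp p hp).ne_zero
    exact_mod_cast mul_ne_zero hq.ne_zero (mul_ne_zero hD h5)
  have htv := tv_of_st key (Pool.Agent.Y723.QT.fg_Q (Pool.Agent.Y723.QT.disc_q hd0 (hD0 i))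
    (Pool.Agent.Y723.QT.root_q (q := ((q * (D * ∏ p ∈ T, p) : ℕ) : ℤ)) (he i)))
  have e1 : ((q * (D * ∏ p ∈ T, p) : ℕ) : ℤ) ^ 2 * (x i).1 =
      (pT T) ^ 2 * (((q * D : ℕ) : ℤ) ^ 2 * (x i).1) := by
    unfold pT
    push_cast
    ring
  have e2 : ((q * (D * ∏ p ∈ T, p) : ℕ) : ℤ) ^ 3 * (x i).2 =
      (pT T) ^ 3 * (((q * D : ℕ) : ℤ) ^ 3 * (x i).2) := by
    unfold pT
    push_cast
    ring
  rw [e1, e2] at htv
  exact htv

end Pool.Agent.K1H97.BM
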