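import Pool.Agent.K1H97.BM.Loc

/-!
# Curves without points of odd order over the 2-adic numbers
-/

set_option autoImplicit false
set_option linter.all false

open WeierstrassCurve Filter Topology MvPolynomial

namespace Pool.Agent.K1H97.BM

open Pool.Agent.TH954 Pool.Agent.R425.D

open scoped Classical

/-- points of odd order are not close to the origin (as in `Pool/Agent/R425/D/Odd.lean`) -/
lemma odd_big {L : Type} [NormedField L] [IsUltrametricDist L] [ProperSpace L]
    {W : WeierstrassCurve L} (hW : SI W) (h2 : ‖(2 : L)‖ = 1 / 2) {R : ℝ} (hR : 1 < R)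
    {T : W.toAffine.Point} (hT : Big R T) {m : ℕ} (hm : Odd m) (h : m • T = 0) : T = 0 := by
  refine zero_of_big fun R' hR' => ?_
  have hc : Nat.Coprime 2 m := (Nat.coprime_two_left).2 hm
  obtain ⟨r, hr⟩ := pow_unbounded_of_one_lt R' (by norm_num : (1 : ℝ) < 4)
  have hpos : 0 < Nat.totient m := Nat.totient_pos.2 hm.pos
  have h1 : 2 ^ (Nat.totient m * r) ≡ 1 [MOD m] := by
    rw [pow_mul]
    have := (Nat.ModEq.pow_totient hc).pow r
    rwa [one_pow] at this
  have h3 : 2 ^ (Nat.totient m * r) • T = T := by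
    have h4 : 1 ≤ 2 ^ (Nat.totient m * r) := Nat.one_le_two_pow
    obtain ⟨c, hc'⟩ := (Nat.modEq_iff_dvd' h4).1 h1.symm
    have e : 2 ^ (Nat.totient m * r) = c * m + 1 := by
      rw [mul_comm c m, ← hc']
      omega
    rw [e, add_smul, mul_smul, h, smul_zero, zero_add, one_smul]
  rw [← h3]
  refine big_mono ?_ (big_pow hW h2 hR hT (Nat.totient m * r))
  have h6 : (4 : ℝ) ^ r ≤ 4 ^ (Nat.totient m * r) :=
    pow_le_pow_right₀ (by norm_num) (Nat.le_mul_of_pos_left r hpos)
  have h7 : (0 : ℝ) < 4 ^ (Nat.totient m * r) := by positivity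
  nlinarith

lemma half_of_lt {w : ℚ_[2]} (h : ‖w‖ < 1) : ‖w‖ ≤ 1 / 2 := by
  have h5 := (Padic.norm_le_pow_iff_norm_lt_pow_add_one w (-1)).2 (by
    rw [neg_add_cancel, zpow_zero]
    exact h)
  refine h5.trans (le_of_eq ?_)
  norm_num

lemma res_two {x : ℚ_[2]} (hx : ‖x‖ ≤ 1) : ‖x‖ ≤ 1 / 2 ∨ (‖x - 1‖ ≤ 1 / 2 ∧ ‖x‖ = 1) := by
  obtain ⟨X, hX⟩ : ∃ X : ℤ_[2], (X : ℚ_[2]) = x := ⟨⟨x, hx⟩, rfl⟩
  obtain ⟨n, hn, hm⟩ := PadicInt.exists_mem_range (p := 2) X
  rw [IsLocalRing.mem_maximalIdeal, PadicInt.mem_nonunits, PadicInt.norm_def] at hm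
  have hm' : ‖x - (n : ℚ_[2])‖ < 1 := by
    rw [← hX]
    push_cast at hm
    exact hm
  interval_cases n
  · left
    rw [Nat.cast_zero, sub_zero] at hm'
    exact half_of_lt hm'
  · right
    rw [Nat.cast_one] at hm'
    refine ⟨half_of_lt hm', ?_⟩
    have e : x = 1 + (x - 1) := by ring
    rw [e, uadd_eq (by rw [norm_one]; exact hm'), norm_one]

lemma norm_dvd2 {a : ℤ} (h : (2 : ℤ) ∣ a) : ‖((a : ℤ) : ℚ_[2])‖ ≤ 1 / 2 := by
  obtain ⟨b, rfl⟩ := h
  push_cast
  rw [norm_mul, norm_two']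
  have := Padic.norm_int_le_one (p := 2) b
  linarith

lemma norm_dvd4 {a : ℤ} (h : (4 : ℤ) ∣ a) : ‖((a : ℤ) : ℚ_[2])‖ ≤ 1 / 4 := by
  obtain ⟨b, rfl⟩ := h
  have e : (((4 * b : ℤ)) : ℚ_[2]) = 2 * (2 * (b : ℚ_[2])) := by
    push_cast
    ring
  rw [e, norm_mul, norm_mul, norm_two']
  have := Padic.norm_int_le_one (p := 2) b
  linarith

lemma norm_odd {a : ℤ} (h : ¬ (2 : ℤ) ∣ a) : ‖((a : ℤ) : ℚ_[2])‖ = 1 := by
  rcases lt_or_eq_of_le (Padic.norm_int_le_one (p := 2) a) with h1 | h1
  · exact absurd ((Padic.norm_intCast_lt_one_iff (p := 2)).1 h1) (by exact_mod_cast h)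
  · exact h1

/-- **A local condition at two.** -/
theorem no_odd {A B : ℤ} (hA : A % 4 = 3) (hB : B % 4 = 0) (T : (cv A B ℚ_[2]).toAffine.Point)
    (m : ℕ) (hm : Odd m) (h : m • T = 0) : T = 0 := by
  have hW := si_cv A B
  have h2 := norm_two'
  by_cases hT2 : 2 • T = 0
  · obtain ⟨c, rfl⟩ := hm
    rw [add_nsmul, mul_nsmul, hT2, nsmul_zero, zero_add, one_nsmul] at h
    exact h
  exfalso
  apply hT2
  refine odd_big hW h2 (by norm_num : (1 : ℝ) < 4) ?_ hm (by
    rw [← mul_nsmul', mul_nsmul, h, nsmul_zero])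
  match T with
  | .zero =>
    have : (2 • Affine.Point.zero : (cv A B ℚ_[2]).toAffine.Point) = 0 := nsmul_zero 2
    rw [this]
    exact big_zero _
  | .some x y n =>
    by_cases hx : 1 < ‖x‖
    · have := big_two hW h2 hx (T := .some x y n) (big_some.mpr le_rfl)
      exact big_mono (by linarith) this
    rw [not_lt] at hx
    have hy1 := hW.norm_y_le_one n hx
    generalize hS : 2 • Affine.Point.some x y n = Sp
    match Sp with
    | .zero => exact big_zero _
    | .some X Y n' =>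
      rw [two_nsmul] at hS
      obtain ⟨-, hy0, hX⟩ := hW.toShort.add_eq hS
      have he := hW.toShort.eqn n
      rw [big_some]
      change X = ((3 * x ^ 2 + (A : ℚ_[2])) / (2 * y)) ^ 2 - 2 * x at hX
      change y ^ 2 = x ^ 3 + (A : ℚ_[2]) * x + (B : ℚ_[2]) at he
      have hypos : 0 < ‖y‖ := norm_pos_iff.2 hy0
      have hA1 : ‖(A : ℚ_[2])‖ = 1 := norm_odd (by omega)
      -- the slope
      have hl : 2 ≤ ‖(3 * x ^ 2 + (A : ℚ_[2])) / (2 * y)‖ := by
        rw [norm_div, norm_mul, h2, le_div_iff₀ (by positivity)]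
        rcases res_two hx with h3 | ⟨h3, h4⟩
        · have h5 : ‖3 * x ^ 2‖ < ‖(A : ℚ_[2])‖ := by
            rw [hA1, norm_mul, norm_pow]
            have h6 := u3 (L := ℚ_[2])
            have h7 : ‖x‖ ^ 2 ≤ (1 / 2) ^ 2 := pow_le_pow_left₀ (norm_nonneg _) h3 2
            have h8 : 0 ≤ ‖x‖ ^ 2 := by positivity
            nlinarith
          rw [add_comm, uadd_eq h5, hA1]
          linarith
        · have h5 : ‖x + 1‖ ≤ 1 / 2 := by
            have e : x + 1 = (x - 1) + 2 := by ring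
            rw [e]
            exact uadd h3 h2.le
          have h6 : ‖x ^ 2 - 1‖ ≤ 1 / 4 := by
            have e : x ^ 2 - 1 = (x - 1) * (x + 1) := by ring
            rw [e, norm_mul]
            nlinarith [norm_nonneg (x - 1), norm_nonneg (x + 1)]
          have h7 : ‖3 * (x ^ 2 - 1)‖ ≤ 1 / 4 := by
            rw [norm_mul]
            have h8 := u3 (L := ℚ_[2])
            have h9 := norm_nonneg (x ^ 2 - 1)
            nlinarith
          have h8 : ‖((A + 3 : ℤ) : ℚ_[2])‖ = 1 / 2 := by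
            have e : (A + 3 : ℤ) = 2 * ((A + 3) / 2) := by omega
            rw [e]
            push_cast
            rw [norm_mul, h2]
            have h10 := norm_odd (a := (A + 3) / 2) (by omega)
            rw [h10, mul_one]
          have h9 : ‖3 * x ^ 2 + (A : ℚ_[2])‖ = 1 / 2 := by
            have e : 3 * x ^ 2 + (A : ℚ_[2]) = ((A + 3 : ℤ) : ℚ_[2]) + 3 * (x ^ 2 - 1) := by
              push_cast
              ring
            rw [e, uadd_eq (by rw [h8]; exact h7.trans_lt (by norm_num)), h8]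
          have h10 : ‖y ^ 2‖ ≤ 1 / 4 := by
            have e : y ^ 2 = x * ((x ^ 2 - 1) + ((A + 1 : ℤ) : ℚ_[2])) + ((B : ℤ) : ℚ_[2]) := by
              rw [he]
              push_cast
              ring
            rw [e]
            refine uadd ?_ (norm_dvd4 (by omega))
            rw [norm_mul, h4, one_mul]
            exact uadd h6 (norm_dvd4 (by omega))
          rw [norm_pow] at h10
          have h11 : ‖y‖ ≤ 1 / 2 := by
            by_contra hcon
            rw [not_le] at hcon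
            nlinarith
          rw [h9]
          linarith
      have hl2 : 4 ≤ ‖((3 * x ^ 2 + (A : ℚ_[2])) / (2 * y)) ^ 2‖ := by
        rw [norm_pow]
        nlinarith
      have h2x : ‖2 * x‖ ≤ 1 / 2 := by
        rw [norm_mul, h2]
        linarith
      rw [hX, usub_eq (by linarith)]
      exact hl2

end Pool.Agent.K1H97.BM
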