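import Pool.Agent.K1H97.BM.Glo

/-!
# The completions above two of a field generated by square roots of integers `≡ 1` modulo `8`

The homomorphism from the field of the 2-adic numbers is as in `Pool/Agent/R425/D/Split.lean`.
-/

set_option autoImplicit false
set_option linter.all false

open NumberField IsDedekindDomain Filter Topology WithZero

namespace Pool.Agent.K1H97.BM

open scoped Classical

section

variable {K : Type} [Field K] [NumberField K] (v : HeightOneSpectrum (𝓞 K))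

/-- the field of the 2-adic numbers in the completion at a place above two -/
theorem exists_f (hmem2 : ((2 : ℕ) : 𝓞 K) ∈ v.asIdeal) :
    ∃ f : ℚ_[2] →+* v.adicCompletion K, Continuous f := by
  let u : HeightOneSpectrum (𝓞 ℚ) :=
    (Rat.HeightOneSpectrum.primesEquiv (R := 𝓞 ℚ)).symm ⟨2, Nat.prime_two⟩
  have hu : Rat.HeightOneSpectrum.primesEquiv u = (⟨2, Nat.prime_two⟩ : Nat.Primes) :=
    Equiv.apply_symm_apply _ _
  -- valuations
  have hodd : ∀ b : ℤ, ¬ (2 : ℤ) ∣ b → v.valuation K ((b : ℤ) : K) = 1 := by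
    intro b hb
    have e : ((b : ℤ) : K) = algebraMap (𝓞 K) K ((b : ℤ) : 𝓞 K) := by rw [map_intCast]
    rw [e, v.valuation_eq_one_iff_notMem]
    intro hmem
    apply v.isPrime.ne_top
    rw [Ideal.eq_top_iff_one]
    obtain ⟨c, hc⟩ : ∃ c, b = 2 * c + 1 := by
      have h : Odd b := by
        rw [← Int.not_even_iff_odd]
        intro h
        exact hb h.two_dvd
      exact h
    have h5 : (1 : 𝓞 K) = ((b : ℤ) : 𝓞 K) - ((2 : ℕ) : 𝓞 K) * ((c : ℤ) : 𝓞 K) := by
      rw [hc]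
      push_cast
      ring
    rw [h5]
    exact v.asIdeal.sub_mem hmem (v.asIdeal.mul_mem_right _ hmem2)
  have hint : ∀ b : ℤ, v.valuation K ((b : ℤ) : K) ≤ 1 := by
    intro b
    have e : ((b : ℤ) : K) = algebraMap (𝓞 K) K ((b : ℤ) : 𝓞 K) := by rw [map_intCast]
    rw [e]
    exact v.valuation_le_one _
  have hval : ∀ x : ℚ, ¬ 2 ∣ x.den → v.valuation K (algebraMap ℚ K x) =
      v.valuation K ((x.num : ℤ) : K) := by
    intro x hx
    have e : algebraMap ℚ K x = ((x.num : ℤ) : K) / (((x.den : ℕ) : ℤ) : K) := by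
      rw [eq_ratCast]
      have := Rat.cast_def (K := K) x
      rw [this]
      push_cast
      rfl
    have h9 : v.valuation K ((((x.den : ℕ) : ℤ)) : K) = 1 := hodd _ (by exact_mod_cast hx)
    rw [e, map_div₀, h9, div_one]
  have hden : ∀ x : ℚ, u.valuation ℚ x ≤ 1 ↔ ¬ 2 ∣ x.den := by
    intro x
    have h1 := (Rat.HeightOneSpectrum.valuation_equiv_padicValuation u).le_one_iff_le_one (x := x)
    rw [h1, hu]
    haveI : Fact (Nat.Prime 2) := ⟨Nat.prime_two⟩
    exact Rat.padicValuation_le_one_iff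
  have i1 : ∀ x : ℚ, u.valuation ℚ x ≤ 1 → v.valuation K (algebraMap ℚ K x) ≤ 1 := by
    intro x hx
    rw [hval x ((hden x).1 hx)]
    exact hint _
  have i2 : ∀ x : ℚ, u.valuation ℚ x < 1 → v.valuation K (algebraMap ℚ K x) < 1 := by
    intro x hx
    rw [hval x ((hden x).1 hx.le)]
    have hx2 : (2 : ℤ) ∣ x.num := by
      by_contra hno
      by_cases hx0 : x = 0
      · rw [hx0] at hno
        exact hno (by simp)
      have h6 : ¬ 2 ∣ (x⁻¹).den := by
        rw [Rat.den_inv_of_ne_zero hx0]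
        intro h
        exact hno (Int.natCast_dvd.2 h)
      have h7 := (hden x⁻¹).2 h6
      rw [map_inv₀, inv_le_one₀ (zero_lt_iff.2 ((Valuation.ne_zero_iff _).2 hx0))] at h7
      exact absurd hx (not_lt.2 h7)
    obtain ⟨c, hc⟩ := hx2
    have e : ((x.num : ℤ) : K) = algebraMap (𝓞 K) K (((2 : ℕ) : 𝓞 K) * ((c : ℤ) : 𝓞 K)) := by
      rw [hc, map_mul, map_natCast, map_intCast]
      push_cast
      rfl
    rw [e, v.valuation_lt_one_iff_mem]
    exact v.asIdeal.mul_mem_right _ hmem2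
  obtain ⟨j, hj1, hj2⟩ := Pool.Agent.Y46.G2.exists_compl_cont u v (algebraMap ℚ K) i1 i2
  have hfin : Nonempty (ℚ_[2] ≃A[ℚ] u.adicCompletion ℚ) := by
    have e := Rat.HeightOneSpectrum.adicCompletion.padicEquiv (R := 𝓞 ℚ) u
    have h : ∀ p : Nat.Primes, p = (⟨2, Nat.prime_two⟩ : Nat.Primes) →
        ∀ (_ : Fact (Nat.Prime p.1)), Nonempty (u.adicCompletion ℚ ≃A[ℚ] ℚ_[p.1]) →
        Nonempty (ℚ_[2] ≃A[ℚ] u.adicCompletion ℚ) := by
      rintro p rfl _ ⟨e⟩
      exact ⟨e.symm⟩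
    exact h _ hu _ ⟨e⟩
  obtain ⟨e⟩ := hfin
  let f : ℚ_[2] →+* v.adicCompletion K := j.comp (e : ℚ_[2] ≃+* u.adicCompletion ℚ).toRingHom
  exact ⟨f, hj1.comp e.continuous⟩

/-- a square root of a square of the smaller field is in the smaller field -/
lemma sq_mem {L : Type} [Field L] (f : ℚ_[2] →+* L) {m : ℤ} (hm : IsSquare ((m : ℤ) : ℚ_[2]))
    {x : L} (hx : x ^ 2 = (m : L)) : x ∈ f.fieldRange := by
  obtain ⟨s, hs⟩ := hm
  have h1 : x ^ 2 = (f s) ^ 2 := by
    rw [hx, ← map_pow, pow_two, ← hs, map_intCast]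
  rcases sq_eq_sq_iff_eq_or_eq_neg.1 h1 with h | h
  · rw [h]
    exact ⟨s, rfl⟩
  · rw [h]
    exact ⟨-s, map_neg f s⟩

/-- **The completions at the places above two.** -/
theorem split_sq {n : ℕ} (x : Fin n → K) (m : Fin n → ℤ) (hx : ∀ i, x i ^ 2 = ((m i : ℤ) : K))
    (hm : ∀ i, IsSquare ((m i : ℤ) : ℚ_[2])) (hgen : IntermediateField.adjoin ℚ (Set.range x) = ⊤)
    (hmem2 : ((2 : ℕ) : 𝓞 K) ∈ v.asIdeal) : Nonempty (ℚ_[2] ≃+* v.adicCompletion K) := by
  obtain ⟨f, hf⟩ := exists_f v hmem2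
  -- the elements of K
  have hK : ∀ z : K, algebraMap K (v.adicCompletion K) z ∈ f.fieldRange := by
    let G : IntermediateField ℚ K :=
      { (f.fieldRange.comap (algebraMap K (v.adicCompletion K))) with
        algebraMap_mem' := fun r => by
          show algebraMap K (v.adicCompletion K) (algebraMap ℚ K r) ∈ f.fieldRange
          refine ⟨(r : ℚ_[2]), ?_⟩
          rw [map_ratCast, eq_ratCast, map_ratCast] }
    have h1 : IntermediateField.adjoin ℚ (Set.range x) ≤ G := by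
      rw [IntermediateField.adjoin_le_iff]
      rintro _ ⟨i, rfl⟩
      show algebraMap K (v.adicCompletion K) (x i) ∈ f.fieldRange
      refine sq_mem f (hm i) ?_
      rw [← map_pow, hx i, map_intCast]
    rw [hgen] at h1
    intro z
    exact h1 (IntermediateField.mem_top (x := z))
  -- the norms
  have hball : ∀ w : ℚ_[2], ‖w‖ ≤ 1 → ‖f w‖ ≤ 1 := by
    intro w hw
    have hcomp : IsCompact (f '' Metric.closedBall (0 : ℚ_[2]) 1) :=
      (isCompact_closedBall (0 : ℚ_[2]) 1).image hf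
    obtain ⟨C, hC⟩ := hcomp.isBounded.exists_norm_le
    by_contra hcon
    push Not at hcon
    obtain ⟨n, hn⟩ := pow_unbounded_of_one_lt C hcon
    have h1 := hC (f (w ^ n)) ⟨w ^ n, by
      rw [mem_closedBall_zero_iff, norm_pow]
      exact pow_le_one₀ (norm_nonneg _) hw, rfl⟩
    rw [map_pow, norm_pow] at h1
    linarith
  have h20 : (2 : v.adicCompletion K) ≠ 0 := Pool.Agent.TH954.two_ne v
  have h2 : ‖(2 : v.adicCompletion K)‖ < 1 := by
    have h1 : (2 : v.adicCompletion K) = algebraMap K (v.adicCompletion K) ((2 : ℕ) : K) := by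
      rw [map_natCast]
      norm_num
    rw [h1, Pool.Agent.R425.D.norm_lt_one']
    have e : ((2 : ℕ) : K) = algebraMap (𝓞 K) K ((2 : ℕ) : 𝓞 K) := (map_natCast _ 2).symm
    rw [e]
    exact (v.valuation_lt_one_iff_mem _).2 hmem2
  have hback : ∀ y : ℚ_[2], ‖f y‖ ≤ 1 → ‖y‖ ≤ 1 := by
    intro y hy
    by_contra hcon
    push Not at hcon
    have hy0 : y ≠ 0 := by
      rintro rfl
      rw [norm_zero] at hcon
      norm_num at hcon
    have h3 : ‖y⁻¹‖ < 1 := by
      rw [norm_inv]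
      exact inv_lt_one_of_one_lt₀ hcon
    have h4 : ‖y⁻¹ / 2‖ ≤ 1 := by
      rw [norm_div, norm_two', div_le_one (by norm_num)]
      have h5 := (Padic.norm_le_pow_iff_norm_lt_pow_add_one (y⁻¹) (-1)).2 (by
        rw [neg_add_cancel, zpow_zero]
        exact h3)
      refine h5.trans (le_of_eq ?_)
      norm_num
    have h6 := hball _ h4
    rw [map_div₀, map_ofNat, norm_div, div_le_one (norm_pos_iff.2 h20), map_inv₀, norm_inv] at h6
    have h7 : 0 < ‖f y‖ := norm_pos_iff.2 ((map_ne_zero f).2 hy0)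
    have h8 : 1 ≤ ‖f y‖⁻¹ := (one_le_inv₀ h7).2 hy
    linarith
  have hint2 : ∀ z : v.adicCompletion K, ‖z‖ ≤ 1 → ∃ y : ℚ_[2], f y = z := by
    intro z hz
    have hcomp : IsCompact (f '' Metric.closedBall (0 : ℚ_[2]) 1) :=
      (isCompact_closedBall (0 : ℚ_[2]) 1).image hf
    have hcl : IsClosed (f '' Metric.closedBall (0 : ℚ_[2]) 1) := hcomp.isClosed
    have hmem : z ∈ f '' Metric.closedBall (0 : ℚ_[2]) 1 := by
      rw [← hcl.closure_eq, Metric.mem_closure_iff]
      intro ε hε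
      obtain ⟨t, ht⟩ := Pool.Agent.TH954.exists_approx v (lt_min hε one_pos) z
      obtain ⟨y, hy⟩ := hK t
      refine ⟨f y, ⟨y, ?_, rfl⟩, ?_⟩
      · rw [mem_closedBall_zero_iff]
        apply hback
        rw [hy]
        have e : algebraMap K (v.adicCompletion K) t =
            z - (z - algebraMap K (v.adicCompletion K) t) := by ring
        rw [e]
        exact Pool.Agent.TH954.usub hz ((ht.trans_le (min_le_right _ _)).le)
      · rw [hy, dist_eq_norm]
        exact ht.trans_le (min_le_left _ _)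
    obtain ⟨y, -, hy⟩ := hmem
    exact ⟨y, hy⟩
  refine ⟨RingEquiv.ofBijective f ⟨f.injective, fun z => ?_⟩⟩
  obtain ⟨n, hn⟩ := exists_pow_lt_of_lt_one (show (0 : ℝ) < 1 / (‖z‖ + 1) by positivity) h2
  have h6 : ‖z * 2 ^ n‖ ≤ 1 := by
    rw [norm_mul, norm_pow]
    have h7 : ‖z‖ + 1 > 0 := by positivity
    rw [lt_div_iff₀ h7] at hn
    have h8 : 0 ≤ ‖(2 : v.adicCompletion K)‖ ^ n := by positivity
    nlinarith
  obtain ⟨y, hy⟩ := hint2 _ h6
  refine ⟨y / 2 ^ n, ?_⟩
  rw [map_div₀, hy, map_pow, map_ofNat]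
  have : (2 : v.adicCompletion K) ^ n ≠ 0 := pow_ne_zero n h20
  field_simp

end

end Pool.Agent.K1H97.BM
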