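import Pool.Agent.K1H97.NA.Fin
import Pool.Agent.K1H97.ST.Main
import Pool.Agent.K1H97.FC.Fld

/-!
# Infinite sets of primes which do not change the corank of the Laplacian
-/

set_option autoImplicit false

open scoped Classical

namespace Pool.Agent.K1H97.BM

open Finset
open Pool.Agent.K1H97.CU
open Pool.Agent.Y703.CQ (nr)
open Pool.Agent.K1H97.ST (Lap Ker ker_card GP St)
open Pool.Agent.K1H97.NA (Ev Sol Cl PM ev_rank)
open Pool.Agent.W307.RT (Sh)
open Pool.Agent.TH841.SH.D (Sha)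

lemma nr_one {p r : ℕ} (hp : p.Prime) (hr : ¬ p ∣ r) (h : jacobiSym (r : ℤ) p = 1) :
    nr p r = 0 := by
  have : Fact p.Prime := ⟨hp⟩
  have h0 : ((r : ℤ) : ZMod p) ≠ 0 := by
    rw [Int.cast_natCast]
    intro h'
    exact hr ((ZMod.natCast_eq_zero_iff _ _).1 h')
  unfold nr
  rw [if_pos]
  have h2 := (legendreSym.eq_one_iff p h0).1 (by rw [jacobiSym.legendreSym.to_jacobiSym]; exact h)
  rwa [Int.cast_natCast] at h2

lemma nr_neg {p r : ℕ} (hp : p.Prime) (h : jacobiSym (r : ℤ) p = -1) : nr p r = 1 := by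
  have : Fact p.Prime := ⟨hp⟩
  unfold nr
  rw [if_neg]
  have h2 := (legendreSym.eq_neg_one_iff p).1 (by rw [jacobiSym.legendreSym.to_jacobiSym]; exact h)
  rwa [Int.cast_natCast] at h2

/-- **Infinite sets of primes without edges except to `q`.** -/
theorem exists_R {M q D : ℕ} (hM : 0 < M) (hM4 : 4 ∣ M) (hq : q.Prime) (hq4 : q % 4 = 1)
    (hqM : Nat.Coprime q M) (hD : D ≠ 0) (hDc : ∀ p : ℕ, p.Prime → p ∣ D → p % 4 = 1 ∧ p ≠ q) :
    ∃ R : Set ℕ, R.Infinite ∧ (∀ r ∈ R, r.Prime ∧ r ≡ 1 [MOD M] ∧ r ≠ q ∧ ¬ r ∣ D) ∧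
      (∀ r ∈ R, nr r q = 1 ∧ ∀ p : ℕ, p.Prime → p ∣ D → nr p r = 0 ∧ nr r p = 0) ∧
      ∀ r ∈ R, ∀ r' ∈ R, r ≠ r' → nr r r' = 0 := by
  have hq2 : q ≠ 2 := by omega
  have hqD : q.Coprime D := by
    rw [hq.coprime_iff_not_dvd]
    exact fun h => (hDc q hq h).2 rfl
  have hMD : 0 < M * D := Nat.mul_pos hM (Nat.pos_of_ne_zero hD)
  obtain ⟨r₀, rb, rp, rm, rs⟩ := exists_prime hMD (Nat.coprime_one_left (M * D)) (x := -1)
    (Or.inr rfl) {q} (fun r hr => by
      rw [mem_singleton] at hr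
      subst hr
      exact ⟨hq, hq2, Nat.Coprime.mul_right hqM hqD⟩) (M * D * q)
  have hrq : jacobiSym (r₀ : ℤ) q = -1 := rs q (mem_singleton_self _)
  obtain ⟨W, hW⟩ : ∃ W : ℕ, W = M * D * q := ⟨_, rfl⟩
  have hW0 : 0 < W := by rw [hW]; exact Nat.mul_pos hMD hq.pos
  have hcop : r₀.Coprime W := by
    rw [rp.coprime_iff_not_dvd]
    intro hd
    have := Nat.le_of_dvd hW0 hd
    omega
  have hMW : M ∣ W := by rw [hW, mul_assoc]; exact dvd_mul_right _ _
  have hDW : D ∣ W := by rw [hW, mul_assoc, mul_left_comm]; exact dvd_mul_right _ _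
  have hqW : q ∣ W := by rw [hW]; exact dvd_mul_left _ _
  have rM : ∀ {r : ℕ}, r ≡ r₀ [MOD W] → r ≡ 1 [MOD M] := fun h =>
    (h.of_dvd hMW).trans (rm.of_dvd (dvd_mul_right _ _))
  have rD : ∀ {r : ℕ}, r ≡ r₀ [MOD W] → r ≡ 1 [MOD D] := fun h =>
    (h.of_dvd hDW).trans (rm.of_dvd (dvd_mul_left _ _))
  have jmod : ∀ {p a b : ℕ}, a ≡ b [MOD p] → jacobiSym (a : ℤ) p = jacobiSym (b : ℤ) p := by
    intro p a b hab
    have h1 : (a : ℤ) % (p : ℤ) = (b : ℤ) % (p : ℤ) := by exact_mod_cast hab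
    rw [jacobiSym.mod_left, h1, ← jacobiSym.mod_left]
  have r4 : ∀ {r : ℕ}, r ≡ r₀ [MOD W] → r % 4 = 1 := fun h => (rM h).of_dvd hM4
  let Rl : ℕ → ℕ → Prop := fun q q' => q ≠ q' ∧ jacobiSym (q : ℤ) q' = 1 ∧ jacobiSym (q' : ℤ) q = 1
  have hsymm : Std.Symm Rl := ⟨fun q q' h => ⟨h.1.symm, h.2.2, h.2.1⟩⟩
  let P : ℕ → Prop := fun r => r.Prime ∧ r ≡ r₀ [MOD W] ∧ W < r
  have hcop' : ∀ {r : ℕ}, r ≡ r₀ [MOD W] → r.Coprime W := by
    intro r hr
    unfold Nat.Coprime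
    rw [hr.gcd_eq]
    exact hcop
  have hstep : ∀ F : Finset ℕ, (∀ r ∈ F, P r) → ∃ y, P y ∧ ∀ r ∈ F, Rl r y := by
    intro F hF
    obtain ⟨y, y1, y2, y3, y4⟩ := exists_prime hW0 hcop (x := 1) (Or.inl rfl) F (by
      intro r hr
      obtain ⟨a1, a2, -⟩ := hF r hr
      have := r4 a2
      exact ⟨a1, by omega, hcop' a2⟩) (W + F.sup id)
    have yF : ∀ r ∈ F, r < y := fun r hr => by
      have : r ≤ F.sup id := le_sup (f := id) hr
      omega
    refine ⟨y, ⟨y2, y3, by omega⟩, fun r hr => ⟨(yF r hr).ne, ?_, y4 r hr⟩⟩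
    have h1 := r4 (hF r hr).2.1
    have h2 := r4 y3
    rw [jacobiSym.quadratic_reciprocity_one_mod_four (a := r) (b := y) (by omega)
      (Nat.odd_iff.2 (by omega))]
    exact y4 r hr
  obtain ⟨f, hf1, hf2⟩ := exists_seq_of_forall_finset_exists' P Rl hstep
  have hfi : Function.Injective f := by
    intro a b hab
    by_contra hne
    exact (hf2 hne).1 hab
  have hmem : ∀ r ∈ Set.range f, P r := by
    rintro r ⟨n, rfl⟩
    exact hf1 n
  refine ⟨Set.range f, Set.infinite_range_of_injective hfi, ?_, ?_, ?_⟩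
  · intro r hr
    obtain ⟨h1, h2, h3⟩ := hmem r hr
    refine ⟨h1, rM h2, ?_, ?_⟩
    · rintro rfl
      have := Nat.le_of_dvd hW0 hqW
      omega
    · intro h
      have := Nat.le_of_dvd hW0 (h.trans hDW)
      omega
  · intro r hr
    obtain ⟨h1, h2, h3⟩ := hmem r hr
    have hr4 := r4 h2
    refine ⟨nr_neg h1 ?_, fun p hp hpD => ?_⟩
    · rw [jacobiSym.quadratic_reciprocity_one_mod_four (a := q) (b := r) hq4
        (Nat.odd_iff.2 (by omega)), jmod (h2.of_dvd hqW)]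
      exact hrq
    · have hp4 := (hDc p hp hpD).1
      have hpr : p ≠ r := by
        rintro rfl
        have := Nat.le_of_dvd hW0 (hpD.trans hDW)
        omega
      have e1 : jacobiSym (r : ℤ) p = 1 := by
        rw [jmod ((rD h2).of_dvd hpD), Nat.cast_one, jacobiSym.one_left]
      have e2 : jacobiSym (p : ℤ) r = 1 := by
        rw [jacobiSym.quadratic_reciprocity_one_mod_four (a := p) (b := r) hp4
          (Nat.odd_iff.2 (by omega))]
        exact e1
      exact ⟨nr_one hp (fun h => hpr ((Nat.prime_dvd_prime_iff_eq hp h1).1 h)) e1,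
        nr_one h1 (fun h => hpr ((Nat.prime_dvd_prime_iff_eq h1 hp).1 h).symm) e2⟩
  · rintro _ ⟨n, rfl⟩ _ ⟨n', rfl⟩ hne
    have hnn : n' ≠ n := fun h => hne (by rw [h])
    exact nr_one (hf1 n).1 (fun h => hne ((Nat.prime_dvd_prime_iff_eq (hf1 n).1 (hf1 n').1).1 h))
      (hf2 hnn).2.1

/-- the corank of the larger graph -/
theorem ev_union {q D : ℕ} {R : Set ℕ} (hev : Ev q 0 D.primeFactors)
    (h1 : ∀ r ∈ R, nr r q = 1 ∧ ∀ p : ℕ, p.Prime → p ∣ D → nr p r = 0 ∧ nr r p = 0)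
    (h2 : ∀ r ∈ R, ∀ r' ∈ R, r ≠ r' → nr r r' = 0) (hRD : ∀ r ∈ R, ¬ r ∣ D)
    {T : Finset ℕ} (hT : (T : Set ℕ) ⊆ R) : Ev q 0 (D.primeFactors ∪ T) := by
  have hdis : Disjoint D.primeFactors T := by
    rw [Finset.disjoint_left]
    intro p hp hpT
    exact hRD p (hT hpT) (Nat.dvd_of_mem_primeFactors hp)
  have hz : Sol q (D.primeFactors ∪ T) (fun _ => 0) := by
    intro p
    simp
  have hz0 : Sol q D.primeFactors (fun _ => 0) := by
    intro p
    simp
  unfold Ev at hev ⊢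
  rw [pow_zero, Nat.card_eq_one_iff_unique] at hev ⊢
  obtain ⟨hs, -⟩ := hev
  refine ⟨⟨fun x y => ?_⟩, ⟨⟨_, hz⟩⟩⟩
  have key : ∀ x : {x : ↥(D.primeFactors ∪ T) → ZMod 2 // Sol q (D.primeFactors ∪ T) x},
      x.1 = fun _ => 0 := by
    rintro ⟨x, hx⟩
    -- the elements of T
    have hT0 : ∀ (r : ℕ) (hr : r ∈ T), x ⟨r, mem_union_right _ hr⟩ = 0 := by
      intro r hr
      have h3 := hx ⟨r, mem_union_right _ hr⟩
      have h4 : ∑ s : ↥(D.primeFactors ∪ T), nr r s * (x s + x ⟨r, mem_union_right _ hr⟩) = 0 := by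
        refine sum_eq_zero fun s _ => ?_
        have h5 : nr r s = 0 := by
          rcases mem_union.1 s.2 with h | h
          · exact ((h1 r (hT hr)).2 s (Nat.prime_of_mem_primeFactors h)
              (Nat.dvd_of_mem_primeFactors h)).2
          · by_cases hrs : r = s
            · rw [← hrs]
              exact Pool.Agent.K1H97.ST.nr_self
            · exact h2 r (hT hr) s (hT h) hrs
        rw [h5, zero_mul]
      change ∑ s : ↥(D.primeFactors ∪ T), nr r s * (x s + x ⟨r, mem_union_right _ hr⟩) +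
        nr r q * x ⟨r, mem_union_right _ hr⟩ = 0 at h3
      rw [h4, zero_add, (h1 r (hT hr)).1, one_mul] at h3
      exact h3
    -- the restriction to the prime factors of D
    let x' : ↥D.primeFactors → ZMod 2 := fun p => x ⟨p, mem_union_left _ p.2⟩
    have hx' : Sol q D.primeFactors x' := by
      intro p
      have h3 := hx ⟨p, mem_union_left _ p.2⟩
      change ∑ s : ↥(D.primeFactors ∪ T), nr p s * (x s + x ⟨p, mem_union_left _ p.2⟩) +
        nr p q * x ⟨p, mem_union_left _ p.2⟩ = 0 at h3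
      have hp1 := Nat.prime_of_mem_primeFactors p.2
      have hp2 := Nat.dvd_of_mem_primeFactors p.2
      let F : ℕ → ZMod 2 := fun s => if hs : s ∈ D.primeFactors ∪ T then
        nr p s * (x ⟨s, hs⟩ + x ⟨p, mem_union_left _ p.2⟩) else 0
      have e1 : ∑ s : ↥(D.primeFactors ∪ T), nr p s * (x s + x ⟨p, mem_union_left _ p.2⟩) =
          ∑ s ∈ D.primeFactors ∪ T, F s := by
        rw [← Finset.sum_coe_sort (D.primeFactors ∪ T) F]
        refine sum_congr rfl fun s _ => ?_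
        simp only [F]
        rw [dif_pos s.2]
      have e2 : ∑ s : ↥D.primeFactors, nr p s * (x' s + x' p) = ∑ s ∈ D.primeFactors, F s := by
        rw [← Finset.sum_coe_sort D.primeFactors F]
        refine sum_congr rfl fun s _ => ?_
        simp only [F]
        rw [dif_pos (mem_union_left _ s.2)]
      have e3 : ∑ s ∈ T, F s = 0 := by
        refine sum_eq_zero fun s hs => ?_
        simp only [F]
        rw [dif_pos (mem_union_right _ hs), ((h1 s (hT hs)).2 p hp1 hp2).1, zero_mul]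
      rw [e1, sum_union hdis, e3, add_zero] at h3
      show ∑ s : ↥D.primeFactors, nr p s * (x' s + x' p) + nr p q * x' p = 0
      rw [e2]
      exact h3
    have h6 : (⟨x', hx'⟩ : {x : ↥D.primeFactors → ZMod 2 // Sol q D.primeFactors x}) =
        ⟨_, hz0⟩ := Subsingleton.elim _ _
    have h7 : x' = fun _ => 0 := congrArg Subtype.val h6
    funext s
    rcases mem_union.1 s.2 with h | h
    · exact congrFun h7 ⟨s, h⟩
    · exact hT0 s h
  exact Subtype.ext ((key x).trans (key y).symm)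

/-- trivial twists -/
theorem tv_of_st {c : ℤ × ℤ} {d : ℤ} (h : St c d 0) (hfg : Module.Finite ℤ
    (Sh (d ^ 2 * c.1) (d ^ 3 * c.2)).toAffine.Point) : Tv (Sh (d ^ 2 * c.1) (d ^ 3 * c.2)) := by
  obtain ⟨-, h1, h2⟩ := h
  rw [pow_zero] at h2
  have h3 := Nat.eq_one_of_mul_eq_one_right h2
  have h4 := Nat.eq_one_of_mul_eq_one_left h2
  have hr : Module.finrank ℤ (Sh (d ^ 2 * c.1) (d ^ 3 * c.2)).toAffine.Point = 0 := by
    by_contra hne
    exact absurd h3 (Nat.one_lt_two_pow hne).ne'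
  have ht : Module.IsTorsion ℤ (Sh (d ^ 2 * c.1) (d ^ 3 * c.2)).toAffine.Point :=
    Module.finrank_eq_zero_iff_isTorsion.1 hr
  refine ⟨Module.finite_of_fg_torsion _ ht, fun x hx => ?_⟩
  obtain ⟨hs, -⟩ := Nat.card_eq_one_iff_unique.1 h4
  exact congrArg Subtype.val (Subsingleton.elim (⟨x, hx⟩ : {x : Sha _ // x + x = 0})
    ⟨0, add_zero 0⟩)

end Pool.Agent.K1H97.BM
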