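import Pool.Agent.K1H97.BM.Loc

/-!
# Descent by `2 ^ k`-coverings over a field with finitely many points and with a bound for the
2-primary part of the Tate-Shafarevich group
-/

set_option autoImplicit false
set_option linter.all false

open IsDedekindDomain NumberField WeierstrassCurve MvPolynomial

namespace Pool.Agent.K1H97.BM

open Pool.Agent.TH954 Pool.Agent.R425.D

open scoped Classical

variable {K : Type} [Field K] [NumberField K]

/-- the 2-primary part of `Ш` is killed by `2 ^ N` -/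
def Kill (E : WeierstrassCurve K) (N : ℕ) : Prop :=
  ∀ (k : ℕ) (x : Pool.Agent.TH841.NF.D.Sha E), 2 ^ k • x = 0 → 2 ^ N • x = 0

/-- **Selmer classes of two-power order.** -/
theorem cocycle_div {E : WeierstrassCurve K} {N : ℕ} (hsha : Kill E N) (k : ℕ)
    (ξ : (AlgebraicClosure K ≃ₐ[K] AlgebraicClosure K) → AlgPt E K) (hξ : IsCocycle E ξ)
    (hk : ∀ σ, 2 ^ (k + N) • ξ σ = 0)
    (hv : ∀ v : HeightOneSpectrum (𝓞 K), TrivialOver E ξ (v.adicCompletion K))
    (hw : ∀ w : InfinitePlace K, TrivialOver E ξ w.Completion) :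
    ∃ (R : AlgPt E K) (y : E.toAffine.Point), incl E K y = 2 ^ k • R ∧
      ∀ σ, 2 ^ N • ξ σ = act E σ R - R := by
  have hcoc : Pool.Agent.TH841.NF.D.IsShaCoc E ξ :=
    ⟨coc_of hξ, fun v => loc_of hξ (hv v), fun w => loc_of hξ (hw w)⟩
  let x : Pool.Agent.TH841.NF.D.shaCoc E := ⟨ξ, hcoc⟩
  have hx0 : 2 ^ (k + N) • x = 0 := by
    apply Subtype.ext
    funext σ
    exact hk σ
  let q : Pool.Agent.TH841.NF.D.shaCoc E →+ Pool.Agent.TH841.NF.D.Sha E :=
    QuotientAddGroup.mk' ((Pool.Agent.TH841.SH.D.cob E).addSubgroupOf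
      (Pool.Agent.TH841.NF.D.shaCoc E))
  have hq : q (2 ^ N • x) = 0 := by
    rw [map_nsmul]
    refine hsha (k + N) _ ?_
    rw [← map_nsmul, hx0, map_zero]
  have hq' : 2 ^ N • x ∈ (Pool.Agent.TH841.SH.D.cob E).addSubgroupOf
      (Pool.Agent.TH841.NF.D.shaCoc E) := (QuotientAddGroup.eq_zero_iff _).1 hq
  have hq2 := AddSubgroup.mem_addSubgroupOf.1 hq'
  rw [AddSubgroup.coe_nsmul] at hq2
  have hcob : Pool.Agent.TH841.SH.D.IsCob E (2 ^ N • ξ) := hq2
  obtain ⟨R0, hR0⟩ := hcob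
  obtain ⟨R, hR'⟩ : ∃ R : AlgPt E K, ∀ σ, 2 ^ N • ξ σ = act E σ R - R := by
    refine ⟨R0, fun σ => ?_⟩
    have h5 := hR0 σ
    have h6 : (2 ^ N • ξ) σ = 2 ^ N • ξ σ := rfl
    exact h6.symm.trans h5
  obtain ⟨y, hy⟩ : ∃ y : (E.baseChange K).toAffine.Point, incl E K y = 2 ^ k • R := by
    refine exists_of_fixed (L := K) (2 ^ k • R) fun σ => ?_
    have e1 : act E σ R = R + 2 ^ N • ξ σ := by
      rw [hR' σ]
      abel
    rw [act_nsmul, e1, ns_add, ← ns_mul, ← pow_add, hk, add_zero]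
  exact ⟨R, y, hy, hR'⟩

/-- Points which lift to a covering of the Selmer set are congruent to global points. -/
theorem shift {n : ℕ} (E : Fin n → WeierstrassCurve K) {N : ℕ} (hsha : ∀ i, Kill (E i) N)
    (S : Set (MvPolynomial (Fin n × Fin 3) K)) (k : ℕ)
    (ξ : (i : Fin n) → (AlgebraicClosure K ≃ₐ[K] AlgebraicClosure K) → AlgPt (E i) K)
    (hξ : ξ ∈ SelSet E S (2 ^ (k + N))) :
    ∃ y : (i : Fin n) → (E i).toAffine.Point, ∀ (L : Type) [Field L] [CharZero L] [Algebra K L]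
      (ι : AlgebraicClosure K →ₐ[K] AlgebraicClosure L)
      (P : (i : Fin n) → ((E i).baseChange L).toAffine.Point) (Q : (i : Fin n) → AlgPt (E i) L),
      (∀ i, 2 ^ (k + N) • Q i = incl (E i) L (P i)) →
      (∀ i σ τ, Compat ι σ τ → pm (E i) ι (ξ i τ) = act (E i) σ (Q i) - Q i) →
      ∀ i, ∃ z, P i - locHom (L := L) (E i) (y i) = 2 ^ k • z := by
  obtain ⟨h1, h2, h3, h4⟩ := hξ
  have hT : ∀ i, ∃ (R : AlgPt (E i) K) (y : (E i).toAffine.Point),
      incl (E i) K y = 2 ^ k • R ∧ ∀ σ, 2 ^ N • ξ i σ = act (E i) σ R - R := by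
    intro i
    refine cocycle_div (hsha i) k (ξ i) (h1 i) (h2 i) (fun u => ?_) (fun w => ?_)
    · obtain ⟨ι, P, Q, -, -, h⟩ := h3 u
      exact ⟨ι, Q i, fun σ τ hστ => h i σ τ hστ⟩
    · obtain ⟨ι, P, Q, -, -, h⟩ := h4 w
      exact ⟨ι, Q i, fun σ τ hστ => h i σ τ hστ⟩
  choose R y hy hR using hT
  refine ⟨y, fun L _ _ _ ι P Q hPQ hQ i => ?_⟩
  refine local_step (M := 2 ^ N) (N := 2 ^ k) (Q := Q i) (ι := ι) (R := R i) ?_
    (fun σ τ h => hQ i σ τ h) (hR i) (hy i)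
  rw [← pow_add, add_comm N k]
  exact hPQ i

/-- The point `P` over the extension `L` of `K` lifts to the `N`-covering given by the `ξ i`. -/
def CovAt {n : ℕ} (E : Fin n → WeierstrassCurve K) (N : ℕ)
    (ξ : (i : Fin n) → (AlgebraicClosure K ≃ₐ[K] AlgebraicClosure K) → AlgPt (E i) K)
    (L : Type) [Field L] [Algebra K L] (P : (i : Fin n) → ((E i).baseChange L).toAffine.Point) : Prop :=
  ∃ (ι : AlgebraicClosure K →ₐ[K] AlgebraicClosure L) (Q : (i : Fin n) → AlgPt (E i) L),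
    (∀ i, N • Q i = incl (E i) L (P i)) ∧
      ∀ i σ τ, Compat ι σ τ → pm (E i) ι (ξ i τ) = act (E i) σ (Q i) - Q i

/-- **Components at a place of degree one above two.** -/
theorem comp2 {n : ℕ} (a b : Fin n → ℤ) (hD : ∀ i, 4 * a i ^ 3 + 27 * b i ^ 2 ≠ 0) {N : ℕ}
    (hfin : ∀ i, Finite (cv (a i) (b i) K).toAffine.Point)
    (hsha : ∀ i, Kill (cv (a i) (b i) K) N) (S : Set (MvPolynomial (Fin n × Fin 3) K))
    (v : HeightOneSpectrum (𝓞 K)) (e : ℚ_[2] ≃+* v.adicCompletion K)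
    (P : (i : Fin n) → ((cv (a i) (b i) K).baseChange (v.adicCompletion K)).toAffine.Point)
    (h : ∀ k : ℕ, ∃ ξ ∈ SelSet (fun i => cv (a i) (b i) K) S (2 ^ k),
      CovAt (fun i => cv (a i) (b i) K) (2 ^ k) ξ (v.adicCompletion K) P) :
    ∃ y : (i : Fin n) → (cv (a i) (b i) K).toAffine.Point, ∀ i, ∃ m : ℕ, Odd m ∧
      m • (P i - locHom (L := v.adicCompletion K) (cv (a i) (b i) K) (y i)) = 0 := by
  have : CharZero (v.adicCompletion K) :=
    charZero_of_injective_algebraMap (algebraMap K (v.adicCompletion K)).injective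
  have h1 : ∀ k : ℕ, ∃ y : (i : Fin n) → (cv (a i) (b i) K).toAffine.Point, ∀ i, ∃ z,
      P i - locHom (L := v.adicCompletion K) (cv (a i) (b i) K) (y i) = 2 ^ k • z := by
    intro k
    obtain ⟨ξ, hξ, ι, Q, hPQ, hQ⟩ := h (k + N)
    obtain ⟨y, hy⟩ := shift _ hsha S k ξ hξ
    exact ⟨y, hy _ ι P Q hPQ hQ⟩
  choose Y hY using h1
  obtain ⟨y, hy⟩ := Finite.exists_infinite_fiber Y
  have hinf : (Y ⁻¹' {y}).Infinite := Set.infinite_coe_iff.1 hy
  have h2 : ∀ (k : ℕ) i, ∃ z,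
      P i - locHom (L := v.adicCompletion K) (cv (a i) (b i) K) (y i) = 2 ^ k • z := by
    intro k i
    obtain ⟨k', hk', hlt⟩ := hinf.exists_gt k
    have hk'' : Y k' = y := hk'
    obtain ⟨z, hz⟩ := hY k' i
    rw [hk''] at hz
    refine ⟨2 ^ (k' - k) • z, ?_⟩
    rw [hz, ← mul_smul, ← pow_add]
    congr 2
    omega
  let g : v.adicCompletion K →+* ℚ_[2] := e.symm.toRingHom
  refine ⟨y, fun i => ?_⟩
  obtain ⟨φ, hφi, hφ⟩ := transport g ((cv (a i) (b i) K).baseChange (v.adicCompletion K))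
    (cv (a i) (b i) ℚ_[2]) (by
      show ((cv (a i) (b i) K).map (algebraMap K (v.adicCompletion K))).map g = _
      rw [cv_map, cv_map])
  obtain ⟨m, hm, hm0⟩ := odd_of_div (si_cv (a i) (b i)) (disc_cv (hD i)) norm_two'
    (φ (P i - locHom (L := v.adicCompletion K) (cv (a i) (b i) K) (y i))) (fun k => by
      obtain ⟨z, hz⟩ := h2 k i
      exact ⟨φ z, by rw [hz, map_nsmul]⟩)
  refine ⟨m, hm, hφi ?_⟩
  rw [map_nsmul, hm0, map_zero]

/-- the equations over the 2-adic numbers -/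
def eqs2 (θ : K →+* ℚ_[2]) {n : ℕ} (S : Set (MvPolynomial (Fin n × Fin 3) K)) :
    Set (MvPolynomial (Fin n × Fin 3) ℚ_[2]) :=
  {f | ∃ h ∈ S, f = map θ h}

/-- **The Hasse principle part.** -/
theorem empt2 {n : ℕ} (a b : Fin n → ℤ) (hD : ∀ i, 4 * a i ^ 3 + 27 * b i ^ 2 ≠ 0) {N : ℕ}
    (hfin : ∀ i, Finite (cv (a i) (b i) K).toAffine.Point)
    (hsha : ∀ i, Kill (cv (a i) (b i) K) N)
    (hodd : ∀ i (T : (cv (a i) (b i) ℚ_[2]).toAffine.Point) (m : ℕ), Odd m → m • T = 0 → T = 0)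
    (S : Set (MvPolynomial (Fin n × Fin 3) K)) (hS : ∀ f ∈ S, ∃ d, MultiHom d f)
    (v : HeightOneSpectrum (𝓞 K)) (e : ℚ_[2] ≃+* v.adicCompletion K)
    (hX : ∀ y : (i : Fin n) → (cv (a i) (b i) K).toAffine.Point,
      ¬ ∀ f ∈ S, eval (fun p => crd (y p.1) p.2) f = 0) :
    ∃ k : ℕ, SelSet (fun i => cv (a i) (b i) K) S (2 ^ k) = ∅ := by
  have : CharZero (v.adicCompletion K) :=
    charZero_of_injective_algebraMap (algebraMap K (v.adicCompletion K)).injective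
  let g : v.adicCompletion K →+* ℚ_[2] := e.symm.toRingHom
  let θ : K →+* ℚ_[2] := g.comp (algebraMap K (v.adicCompletion K))
  have hψ : ∀ i, ∃ ψ : (cv (a i) (b i) K).toAffine.Point →+ (cv (a i) (b i) ℚ_[2]).toAffine.Point,
      Function.Injective ψ ∧ ∀ P j, crd (ψ P) j = θ (crd P j) := fun i =>
    transport θ _ _ (cv_map _ _ _)
  choose ψ hψi hψ using hψ
  have hφ : ∀ i, ∃ φ : ((cv (a i) (b i) K).baseChange (v.adicCompletion K)).toAffine.Point →+
      (cv (a i) (b i) ℚ_[2]).toAffine.Point, Function.Injective φ ∧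
        ∀ P j, crd (φ P) j = g (crd P j) := fun i => by
    refine transport g _ _ ?_
    show ((cv (a i) (b i) K).map (algebraMap K (v.adicCompletion K))).map g = _
    rw [cv_map, cv_map]
  choose φ hφi hφ using hφ
  have hcomp : ∀ i (T : (cv (a i) (b i) K).toAffine.Point),
      φ i (locHom (L := v.adicCompletion K) (cv (a i) (b i) K) T) = ψ i T := by
    intro i T
    apply crd_inj'
    intro j
    rw [hφ, hψ]
    exact congrArg g (crd_loc (L := v.adicCompletion K) (cv (a i) (b i) K) T j)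
  have key : ∀ y : (i : Fin n) → (cv (a i) (b i) K).toAffine.Point, ∃ k : ℕ,
      ∀ P : (i : Fin n) → (cv (a i) (b i) ℚ_[2]).toAffine.Point,
      (∀ f ∈ eqs2 θ S, eval (fun p => crd (P p.1) p.2) f = 0) →
      ∃ i, ∀ Q : (cv (a i) (b i) ℚ_[2]).toAffine.Point, P i - ψ i (y i) ≠ 2 ^ k • Q := by
    intro y
    refine loc_shift norm_two' (fun i => cv (a i) (b i) ℚ_[2]) (fun i => si_cv _ _)
      (fun i => disc_cv (hD i)) (eqs2 θ S) ?_ (fun i => ψ i (y i)) ?_
    · rintro f ⟨h, hh, rfl⟩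
      obtain ⟨d, hd⟩ := hS h hh
      exact ⟨d, fun m hm => hd m (MvPolynomial.support_map_subset _ _ hm)⟩
    · intro P hP
      by_contra hcon
      push Not at hcon
      choose m hm1 hm2 using hcon
      have hPy : ∀ i, P i = ψ i (y i) := fun i =>
        sub_eq_zero.1 (hodd i _ (m i) (hm1 i) (hm2 i))
      refine hX y fun f hf => ?_
      have h1 := hP (map θ f) ⟨f, hf, rfl⟩
      have e2 : (fun p : Fin n × Fin 3 => crd (P p.1) p.2) =
          fun p => θ (crd (y p.1) p.2) := by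
        funext p
        rw [hPy, hψ]
      rw [e2, eval_map] at h1
      have h2 : eval₂ θ (fun p => θ (crd (y p.1) p.2)) f = θ (eval (fun p => crd (y p.1) p.2) f) :=
        (eval₂_comp_left θ (RingHom.id K) _ f).symm
      rw [h2, map_eq_zero] at h1
      exact h1
  choose kk hkk using key
  have : Fintype ((i : Fin n) → (cv (a i) (b i) K).toAffine.Point) := Fintype.ofFinite _
  refine ⟨(Finset.univ.sup kk) + N, ?_⟩
  rw [Set.eq_empty_iff_forall_notMem]
  intro ξ hξ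
  obtain ⟨y, hy⟩ := shift _ hsha S _ ξ hξ
  obtain ⟨-, -, h3, -⟩ := hξ
  obtain ⟨ι, P, Q, hP, hPQ, hQ⟩ := h3 v
  have hz := hy _ ι P Q hPQ hQ
  choose z hz using hz
  obtain ⟨i, hi⟩ := hkk y (fun i => φ i (P i)) (by
    rintro f ⟨h, hh, rfl⟩
    have h1 := hP h hh
    rw [aeval_def] at h1
    have h2 := congrArg g h1
    rw [map_zero, MvPolynomial.hom_eval₂] at h2
    rw [eval_map]
    rw [← h2]
    congr 1
    funext p
    exact hφ p.1 (P p.1) p.2)
  have hle : kk y ≤ Finset.univ.sup kk := Finset.le_sup (Finset.mem_univ y)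
  apply hi (2 ^ (Finset.univ.sup kk - kk y) • φ i (z i))
  rw [← mul_smul, ← pow_add, Nat.add_sub_cancel' hle, ← hcomp, ← map_sub, hz i, map_nsmul]

end Pool.Agent.K1H97.BM
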